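import Pool.Agent.Helper95.TF.Fin
import Pool.Agent.Helper96.BC.All
import Pool.Agent.Helper54.GT.AllC
import Pool.Agent.Helper24.SE.M_E1
import Pool.Agent.Helper79.SE.M_E2
import Pool.Agent.Helper17.SE.M_E3
import Pool.Agent.Helper83.SE.M_E4
import Pool.Agent.Helper38.SE.M_E5
import Pool.Agent.Helper17.SE.M_E6
import Pool.Agent.Helper39.SE.M_E7
import Pool.Agent.Helper70.SE.M_E8
import Pool.Agent.Helper24.SE.M_E9
import Pool.Agent.Helper24.SE.M_E10
import Pool.Agent.Helper93.SE.M_O1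
import Pool.Agent.Helper83.SE.M_O2
import Pool.Agent.Helper74.SE.M_O3
import Pool.Agent.Helper70.SE.M_O4
import Pool.Agent.Helper62.SE.M_E11
import Pool.Agent.Helper91.SE.M_E12

/-!
# Project SE: all modules together
-/

set_option autoImplicit false

namespace Pool.Agent.Helper96.SE

open Pool.Agent.Helper95.TT Pool.Agent.Helper24.TF Pool.Agent.Helper96.BC Pool.Agent.Helper95.WS

theorem pE1 : StE1 := Pool.Agent.Helper24.SE.hE1 Pool.Agent.Helper95.WS.w2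
theorem pE2 : StE2 := Pool.Agent.Helper79.SE.hE2 pE1
theorem pE3 : StE3 := Pool.Agent.Helper17.SE.hE3 Pool.Agent.Helper95.WS.w1 pE2
theorem pE4 : StE4 := Pool.Agent.Helper83.SE.hE4 Pool.Agent.Helper54.GT.cCh
theorem pE5 : StE5 := Pool.Agent.Helper38.SE.hE5 pE4
theorem pE6 : StE6 := Pool.Agent.Helper17.SE.hE6 Pool.Agent.Helper95.WS.w1
  Pool.Agent.Helper95.WS.w6 Pool.Agent.Helper95.WS.w7 Pool.Agent.Helper95.WS.w8
  Pool.Agent.Helper95.WS.w9 pE3 pE5
theorem pE7 : StE7 := Pool.Agent.Helper39.SE.hE7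
theorem pE8 : StE8 := Pool.Agent.Helper70.SE.hE8 pE6 pE7
theorem pE9 : StE9 := Pool.Agent.Helper24.SE.hE9 pE7 pE8
theorem pE10 : StE10 := Pool.Agent.Helper24.SE.hE10
theorem pO1 : StO1 := Pool.Agent.Helper93.SE.hO1
theorem pO2 : StO2 := Pool.Agent.Helper83.SE.hO2 pA2 pC2 pC3 pC6 pO1
theorem pO3 : StO3 := Pool.Agent.Helper74.SE.hO3
theorem pO4 : StO4 := Pool.Agent.Helper70.SE.hO4 Pool.Agent.Helper95.TF.a7
  Pool.Agent.Helper95.TF.f1 pE6 pE7 pO3
theorem pE11 : StE11 := Pool.Agent.Helper62.SE.hE11 pA2 pE7 pO2 pO4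

end Pool.Agent.Helper96.SE
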