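import Pool.Agent.Helper96.SE.All
import Pool.Agent.Helper24.TF.M_F7
import Pool.Agent.Helper91.SE.M_E12

/-!
# Project SE: the main theorem without hypotheses
-/

set_option autoImplicit false

namespace Pool.Agent.Helper96.SE

open Pool.Agent.Helper95.TT Pool.Agent.Helper24.TF Pool.Agent.Helper96.BC Pool.Agent.Helper95.WS

theorem pE12 : StE12 :=
  Pool.Agent.Helper91.SE.hE12 pA2 Pool.Agent.Helper95.TF.a7 Pool.Agent.Helper95.TF.f1
    Pool.Agent.Helper95.TF.f2 (Pool.Agent.Helper24.TF.hF7 pA2) pE7 pE8 pE9 pE10 pE11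

end Pool.Agent.Helper96.SE
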