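import Pool.Agent.Helper24.TF.StF
import Pool.Agent.Helper96.BC.St
import Pool.Agent.Helper95.WS.St
import Pool.Agent.Helper54.GT.StC

/-!
# Project SE (MP_6090f9_nt): the residue formula for twists of prime order of fibrations in superelliptic curves

THEOREM.  `k` a number field (no roots of unity needed), `n`, `n'` primes, `m ≥ 0`, `f, g ∈ 𝓞 k[y_1..y_m][x]` separable over
`k(y)` of degree `≥ 1`, `X_D → A^m` the family with the fibres `C_{D,y} × C'_y`, `C_{D,y} : z^n = D(y) f(y,x)`, `C'_y : w^n' = g(y,x)`.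
For every finite set `S` of `D`'s, pairwise different modulo `n`-th powers of `k(y)`:
`∑_(D ∈ S) ((s-2) F_D(s) - 2)² ≤ B² + ε` for `s > 2` close to `2`, `B = (2 genus C)(2 genus C')`.

METHOD.  Bessel's inequality for the kernel `∑_ψ ψ(D) ψ(D')⁻¹ = #{z : z^n = D/D'} - 1` (`ψ` the nontrivial characters of
order `n` of the residue field), whose mean is `0` because `k(y)(E^(1/n))` is a field; Weil's bound for characters of
order `n` with the exact constant from the rationality (WS) and the theorem of Stepanov and Bombieri (GT).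

Every docstring is a complete proof; `StX` is proved as `theorem hX : StX` (hypotheses = earlier statements, as listed).
-/

set_option autoImplicit false

namespace Pool.Agent.Helper96.SE

open NumberField IsDedekindDomain Polynomial Filter Topology
open Pool.Agent.Helper95.TT Pool.Agent.Helper24.TF Pool.Agent.Helper96.BC Pool.Agent.Helper95.WS
open scoped Classical

noncomputable section

/-- number of points over `F` of the smooth projective curve `z^n = h(x)`, `n` a prime, `h` squarefree: the affine points,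
and at infinity the points `z^n = lc(h)` if `n ∣ deg h`, and one point otherwise -/
def ptN {F : Type} [CommRing F] (n : ℕ) (h : F[X]) : ℕ :=
  Nat.card {z : F × F // z.2 ^ n = h.eval z.1} +
  if n ∣ h.natDegree then Nat.card {z : F // z ^ n = h.leadingCoeff} else 1

/-- trace of Frobenius on `H¹` of the curve `z^n = h(x)` -/
def tN {F : Type} [CommRing F] (n : ℕ) (h : F[X]) : ℤ := Nat.card F + 1 - ptN n h

/-- `2 genus = (n - 1) dd n d` for the curve `z^n = h(x)`, `h` squarefree of degree `d` -/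
def dd (n d : ℕ) : ℕ := if n ∣ d then d - 2 else d - 1

def gg (n d : ℕ) : ℕ := (n - 1) * dd n d

/-- the characters of order `n` -/
def XX (F : Type) [Field F] [Finite F] (n : ℕ) : Finset (MulChar F ℂ) :=
  (Set.toFinite {ψ : MulChar F ℂ | ψ ^ n = 1 ∧ ψ ≠ 1}).toFinset

/-- some irreducible factor of `f` has a multiplicity not divisible by `n` -/
def NP {F : Type} [CommRing F] (n : ℕ) (f : F[X]) : Prop :=
  ∃ (P f₁ : F[X]) (a : ℕ), Irreducible P ∧ ¬ P ∣ f₁ ∧ ¬ n ∣ a ∧ f = P ^ a * f₁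

/-- the character sum, with the point at infinity -/
def SI {F : Type} [Field F] [Fintype F] (n : ℕ) (ψ : MulChar F ℂ) (h : F[X]) : ℂ :=
  ∑ x : F, ψ (h.eval x) + if n ∣ h.natDegree then ψ h.leadingCoeff else 0

/-! ## Weil's bound for characters of prime order -/

/-- **E1** (a value different from `1`; generalizes W3).  Hypotheses: StW2.
PROOF.  As `Pool/Agent/Helper24/WS/M_W3.lean`, with `f = P^a f₁` instead of `P f₁`: `f` is monic, so dividing `P` by its leading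
coefficient we may suppose `P` and `f₁` monic; `P`, `f₁` are coprime (`P` irreducible, `P ∤ f₁`), `A P + B f₁ = 1`.  `ψ b ≠ 1` for some unit `b`;
`ψ(b)^n = 1`, `n` prime, `n ∤ a`, so `ψ(b)^a ≠ 1` (otherwise `ψ(b)^(gcd(a,n)) = ψ(b) = 1`).  `y` with norm `b` in `K = AdjoinRoot P`,
`y = aeval θ g`, `u = g B f₁ + A P`.  For monic polynomials the second size does not matter (`res_size` there).
`resultant (P^a f₁) u = (resultant P u)^a resultant f₁ u = b^a` (`resultant_mul_left`, induction for the power). -/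
def StE1 : Prop := ∀ (F : Type) [Field F] [Fintype F] (ψ : MulChar F ℂ) (f : F[X]) (n : ℕ),
  n.Prime → ψ ≠ 1 → ψ ^ n = 1 → f.Monic → NP n f →
  ∃ u : F[X], resultant f u f.natDegree u.natDegree ≠ 0 ∧
    ψ (resultant f u f.natDegree u.natDegree) ≠ 1

/-- **E2** (orthogonality modulo `f`; generalizes W4).  Hypotheses: StE1.
PROOF.  Exactly that of W4 (`Pool/Agent/Helper24/WS/M_W4.lean`), which uses `Squarefree f` only through W3. -/
def StE2 : Prop := ∀ (F : Type) [Field F] [Fintype F] (ψ : MulChar F ℂ) (f : F[X]) (n : ℕ),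
  n.Prime → ψ ≠ 1 → ψ ^ n = 1 → f.Monic → NP n f →
  ∑ a : Fin f.natDegree → F, ψ (resultant f (∑ i, C (a i) * X ^ (i : ℕ)) f.natDegree f.natDegree) = 0

/-- **E3** (`L` is a polynomial; generalizes W5).  Hypotheses: StW1 StE2.
PROOF.  Exactly that of W5 (`Pool/Agent/Helper6/WS/M_W5.lean`), which uses `Squarefree f` only through W4.  `f = C c f₀` with `f₀` monic and
`NP n f₀` (`f₀ = P^a (c⁻¹ f₁)`); `natDegree f ≥ 1` because `a ≠ 0`. -/
def StE3 : Prop := ∀ (F : Type) [Field F] [Fintype F] (ψ : MulChar F ℂ) (f : F[X]) (n : ℕ),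
  n.Prime → ψ ≠ 1 → ψ ^ n = 1 → f ≠ 0 → NP n f →
  (∀ j, f.natDegree ≤ j → AA ψ f j = 0) ∧
  ((∀ b : F, b ≠ 0 → ψ b ^ f.natDegree = 1) →
    ∑ j ∈ Finset.range f.natDegree, (ψ f.leadingCoeff)⁻¹ ^ j * AA ψ f j = 0)

/-- **E4** (Kummer covers; Stepanov-Bombieri).  Hypotheses: StCh of GT (proved: `Pool.Agent.Helper54.GT.cCh`).
PROOF.  `q = |F|`, `Q = |K| = q^e`, `e = [K : F] ≥ 1`, `k` an algebraic closure of `K`, `f̄ ∈ k[X]` the image of `f`.  `F` is perfect, so `P` splits over `k`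
into different linear factors, and `f̄` has a root of multiplicity `a`, `n ∤ a`: `f̄` is not an `n`-th power in `k(X)`.  So `Y^n - f̄` is irreducible over
`k(X)` (`X_pow_sub_C_irreducible_of_prime`), hence in `k[X][Y]` (`Polynomial.Monic.irreducible_iff_irreducible_map_fraction_map`), so prime, and
`R = AdjoinRoot (Y^n - C f̄)` is a domain, free over `k[X]` with basis `1, y, .., y^(n-1)` (`AdjoinRoot.powerBasis'`).  `Γ = rootsOfUnity n F`, of order `n` because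
`n ∣ q - 1`, acts by `y ↦ ζ y`.  `Dat F ω act c` with `c = natDegree f`: `y^i y^j = y^(i+j)` or `f̄ y^(i+j-n)`, `act ζ (y^i) = ζ^i y^i`.  A point of `Pts F ω act ζ e` is a
pair `(a, b)`, `b^n = f̄(a)`, `a^Q = a` (that is `a ∈ K`), `b^Q = ζ b` (the conditions for `ω_i = y^i` follow from that for `y`; `n ≥ 2`).  If `f(a) ≠ 0`: `b^(Q-1) = f(a)^((Q-1)/n)`, so
all `n` roots `b` of `b^n = f(a)` are admissible if `f(a)^((Q-1)/n) = ζ`, otherwise none; if `f(a) = 0` there is one, `b = 0`.  So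
`ncard Pts = n #S_ζ + #{a ∈ K : f(a) = 0}`, and GT gives `|n #S_ζ - Q| ≤ C₀ (c + 1) √Q + deg f`. -/
def StE4 : Prop := ∀ (F : Type) [Field F] [Fintype F] (n : ℕ) (f : F[X]), n.Prime →
  n ∣ Fintype.card F - 1 → f ≠ 0 → NP n f →
  ∃ Cst : ℝ, ∀ (K : Type) [Field K] [Fintype K] [Algebra F K], ∀ ζ : F, ζ ^ n = 1 →
    |((Finset.univ.filter (fun x : K =>
        (aeval x f) ^ ((Fintype.card K - 1) / n) = algebraMap F K ζ)).card : ℝ) -
      (Fintype.card K : ℝ) / n| ≤ Cst * √(Fintype.card K)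

/-- **E5** (bound of the character sums over all extensions).  Hypotheses: StE4.
PROOF.  `q = |F|`, `Q = |K|`.  `ψ(b)^(q-1) = 1` for units `b`, `ψ ≠ 1 = ψ^n`, `n` prime, so `n ∣ q - 1`.  For `x ∈ K` with `f(x) ≠ 0` put `y = f(x)`, `c = N(y) ∈ F`,
`algebraMap c = y^((Q-1)/(q-1))` (`FiniteField.algebraMap_norm_eq_pow`), so `algebraMap (c^((q-1)/n)) = y^((Q-1)/n)`.  `ψ(c)` depends only on `c^((q-1)/n)`: if
`c^((q-1)/n) = c'^((q-1)/n)` then `c/c'` is an `n`-th power (cyclic group `Fˣ`) and `ψ(c/c') = 1`.  So there is `Θ` on the `n`-th roots of unity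
`ζ ∈ F`, `Θ(c^((q-1)/n)) = ψ(c)`, `|Θ| = 1`, multiplicative and not constant, so `∑_ζ Θ(ζ) = 0` (`n` different `ζ`).  If `f(x) = 0` the term is `0`, and
`0^((Q-1)/n) = 0` is no `ζ`.  So `SS ψ f K = ∑_ζ Θ(ζ) #S_ζ = ∑_ζ Θ(ζ) (#S_ζ - Q/n)`, at most `n Cst √Q`. -/
def StE5 : Prop := ∀ (F : Type) [Field F] [Fintype F] (ψ : MulChar F ℂ) (n : ℕ) (f : F[X]),
  n.Prime → ψ ≠ 1 → ψ ^ n = 1 → f ≠ 0 → NP n f →
  ∃ Cst : ℝ, ∀ (K : Type) [Field K] [Fintype K] [Algebra F K],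
    ‖SS ψ f K‖ ≤ Cst * √(Fintype.card K)

/-- **E6** (Weil's bound).  Hypotheses: StW1 StW6 StW7 StW8 StW9 StE3 StE5.
PROOF.  As W11 (`Pool/Agent/Helper83/WS`): W8 for `A = AA ψ f`, `S = PS ψ f`, `d = natDegree f ≥ 1` (W1, E3, W6): a multiset `s` of `d - 1` numbers with
`PS r = - ∑ α^r` for `r ≥ 1`.  `K` the extension of degree `r` (`FiniteField.Extension`): `PS r = SS ψ f K` (W7), so `|∑ α^r| ≤ Cst (√q)^r` (E5) and
`|α| ≤ √q` (W9).  `K = F`: `∑_x ψ(f(x)) = - ∑_(α ∈ s) α` (`Algebra.norm_self`): (i).  (ii) `n ∣ d`: `ψ(b)^d = 1`, `e = ψ(lc f) ≠ 0`; the last formula of W8 at `z = e` is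
`e^(d-1) ∑_j A_j e^(-j) = 0` (E3), so `e ∈ s`, and `∑_x ψ(f(x)) + e = - ∑` over the other `d - 2` elements. -/
def StE6 : Prop := ∀ (F : Type) [Field F] [Fintype F] (ψ : MulChar F ℂ) (n : ℕ) (f : F[X]),
  n.Prime → ψ ≠ 1 → ψ ^ n = 1 → f ≠ 0 → NP n f →
  ‖∑ x : F, ψ (f.eval x)‖ ≤ (f.natDegree - 1 : ℕ) * √(Fintype.card F) ∧
  (n ∣ f.natDegree →
    ‖∑ x : F, ψ (f.eval x) + ψ f.leadingCoeff‖ ≤ (f.natDegree - 2 : ℕ) * √(Fintype.card F))

/-! ## Point counts -/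

/-- **E7** (solutions of `z^n = c`).
PROOF.  `G = Fˣ` is cyclic of order `q - 1`.  `n ∤ q - 1`: `z ↦ z^n` is a bijection of `F`, and there is no character of order `n`
(`ψ^(q-1) = 1`).  `n ∣ q - 1`: let `χ` be a character of order `n` (`MulChar.exists_mulChar_orderOf`-type lemma, with a primitive root of unity of
`ℂ`); the `ψ` with `ψ^n = 1` are the `n` powers of `χ` (a character is determined by its value at a generator).  `c = 0`: one solution, all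
`ψ(0) = 0`.  `c ≠ 0`: `1 + ∑_ψ ψ(c) = ∑_(i<n) χ(c)^i`, which is `n` if `χ(c) = 1` and `0` otherwise, and `χ(c) = 1` iff `c` is an `n`-th power, and then
there are `n` solutions. -/
def StE7 : Prop := ∀ (F : Type) [Field F] [Fintype F] (n : ℕ), n.Prime →
  (∀ c : F, ((Nat.card {z : F // z ^ n = c} : ℕ) : ℂ) = 1 + ∑ ψ ∈ XX F n, ψ c) ∧
  (XX F n).card ≤ n - 1 ∧ (∀ c : F, Nat.card {z : F // z ^ n = c} ≤ n) ∧
  ∀ ψ ∈ XX F n, ∀ a b : F, a ≠ 0 → b ≠ 0 →
    ψ a * starRingEnd ℂ (ψ b) = ψ (a * b ^ (n - 1)) ∧ ‖ψ a‖ = 1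

/-- **E8** (the trace of Frobenius).  Hypotheses: StE6 StE7.
PROOF.  The affine points are counted by `∑_x (1 + ∑_ψ ψ(a h(x)))` (E7), the points at infinity by `1 + ∑_ψ ψ(a lc h)` if `n ∣ deg h` and by `1`
otherwise (`deg (C a h) = deg h`).  So `ptN = q + 1 + ∑_ψ ψ(a) SI n ψ h`.  A squarefree `h` of degree `≥ 1` satisfies `NP n h` with `a = 1` (an irreducible
factor does not divide the cofactor), so E6 gives the bound for `SI`; `|ψ(a)| = 1` and there are at most `n - 1` characters. -/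
def StE8 : Prop := ∀ (F : Type) [Field F] [Fintype F] (n : ℕ) (h : F[X]), n.Prime →
  1 ≤ h.natDegree → Squarefree h →
  (∀ a : F, a ≠ 0 → ((tN n (C a * h) : ℤ) : ℂ) = - ∑ ψ ∈ XX F n, ψ a * SI n ψ h) ∧
  (∀ ψ ∈ XX F n, ‖SI n ψ h‖ ≤ dd n h.natDegree * √(Fintype.card F)) ∧
  ∀ a : F, a ≠ 0 → |(tN n (C a * h) : ℝ)| ≤ gg n h.natDegree * √(Fintype.card F)

/-- **E9** (the kernel inequality).  Hypotheses: StE7 StE8.
PROOF.  Put `z_ψ = ∑_i y_i ψ(a_i)`, `c_ψ = t SI n ψ h`.  The left side is `-2 Re ∑_ψ z_ψ c_ψ ≤ ∑_ψ (λ |c_ψ|² + λ⁻¹ |z_ψ|²)` with `λ = n - 1 ≥ 1`.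
`∑_ψ |c_ψ|² ≤ (n - 1) (dd √q t)²` (E8).  `∑_ψ |z_ψ|² = ∑_ij y_i y_j ∑_ψ ψ(a_i) conj ψ(a_j) = ∑_ij y_i y_j ∑_ψ ψ(a_i a_j^(n-1))` (E7), which is
`∑_ij y_i y_j (#{z : z^n = a_i a_j^(n-1)} - 1)`. -/
def StE9 : Prop := ∀ (F : Type) [Field F] [Fintype F] (n : ℕ) (h : F[X]), n.Prime →
  1 ≤ h.natDegree → Squarefree h → ∀ (ι : Type) [Fintype ι] (a : ι → F) (y : ι → ℝ) (t : ℝ),
  (∀ i, a i ≠ 0) →
  2 * ∑ i, y i * ((tN n (C (a i) * h) : ℝ) * t) ≤
    ((n : ℝ) - 1) * (((n : ℝ) - 1) * (dd n h.natDegree * √(Fintype.card F) * t) ^ 2) +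
    ((n : ℝ) - 1)⁻¹ * ∑ i, ∑ j, y i * y j *
      ((Nat.card {z : F // z ^ n = a i * a j ^ (n - 1)} : ℝ) - 1)

/-- **E10** (Bessel's inequality for a kernel).
PROOF.  `y_i(s) = ∑' w G_i`, `W = ∑' w`, `Y = ∑ y_i²`, `G_ij = ∑' w κ_ij`; everything converges absolutely (bounded times `w`).  Apply the
hypothesis with the numbers `y_i = y_i(s)` at every point, multiply by `w` and sum: `2 Y ≤ N A W + N⁻¹ ∑_ij y_i y_j G_ij`, `G_ii ≤ N W`, `|y_i| ≤ E W`:
`2 Y ≤ N A W + W Y + N⁻¹ (E W)² ∑_(i ≠ j) |G_ij|`.  `W → 1`, `G_ij → 0`, `Y` is bounded, so `Y ≤ N A + o(1)`. -/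
def StE10 : Prop := ∀ (V ι : Type) [Fintype ι] (w : ℝ → V → ℝ) (G : ι → V → ℝ)
  (κ : ι → ι → V → ℝ) (N A E : ℝ), 0 < N → 0 ≤ A →
  (∀ᶠ s : ℝ in 𝓝[>] 1, (∀ v, 0 ≤ w s v) ∧ Summable (w s)) →
  Tendsto (fun s => ∑' v, w s v) (𝓝[>] 1) (𝓝 1) → (∀ i v, |G i v| ≤ E) →
  (∀ i j v, |κ i j v| ≤ E) → (∀ i v, κ i i v ≤ N) →
  (∀ (v : V) (y : ι → ℝ), 2 * ∑ i, y i * G i v ≤ N * A + N⁻¹ * ∑ i, ∑ j, y i * y j * κ i j v) →
  (∀ i j, i ≠ j → Tendsto (fun s => ∑' v, w s v * κ i j v) (𝓝[>] 1) (𝓝 0)) →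
  ∀ ε > 0, ∀ᶠ s : ℝ in 𝓝[>] 1, ∑ i, (∑' v, w s v * G i v) ^ 2 ≤ N * A + ε

/-! ## The mean of the number of solutions -/

/-- mean value over the points of the residue field of `#{z : z^n = E(y)} - 1` -/
def avN {k : Type} [Field k] [NumberField k] {m : ℕ} (n : ℕ) (E : Py k m) (v : Pr k) : ℝ :=
  (∑ᶠ y : Fin m → Kv v, ((Nat.card {z : Kv v // z ^ n = val v y E} : ℝ) - 1)) / (q v : ℝ) ^ m

/-- number of roots of `h` modulo `v` -/
def Rt {k : Type} [Field k] [NumberField k] (h : (𝓞 k)[X]) (v : Pr k) : ℕ :=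
  Nat.card {x : Kv v // (h.map (Ideal.Quotient.mk v.asIdeal)).eval x = 0}

/-- **O1** (homomorphisms are roots).
PROOF.  `φ ↦ φ θ` from `Hom_(𝓞 k)(𝓞 K, κ)`, `κ = 𝓞 k / v`, to the roots of `h` modulo `v`.  There is `c ∈ 𝓞 k`, `c ≠ 0`, with `c 𝓞 K ⊆ 𝓞 k[θ]`: `𝓞 K` is a
finitely generated `𝓞 k`-module and each element of `K = k[θ]` has a nonzero multiple in `𝓞 k[θ]`.  Let `c ∉ v`.  Injective: `c x = p(θ)`, `p ∈ (𝓞 k)[X]`, so
`c φ(x) = p(φ θ)`.  Surjective: let `α` be a root of `h` modulo `v`; for `x ∈ 𝓞 K` choose `p` with `c x = p(θ)` and put `φ x = c⁻¹ p(α)`.  Well defined: if `p(θ) = 0`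
then `h ∣ p` in `(𝓞 k)[X]` (`h` is monic and its image is the minimal polynomial of `θ` over `k`, so `p %ₘ h = 0`) and `p(α) = 0`.  Additive,
`𝓞 k`-linear; if `c x = p(θ)`, `c y = r(θ)`, `c x y = t(θ)` then `(p r - c t)(θ) = 0`, so `p(α) r(α) = c t(α)`: multiplicative; `φ 1 = 1`. -/
def StO1 : Prop := ∀ (k K : Type) [Field k] [NumberField k] [Field K] [NumberField K] [Algebra k K]
  (θ : 𝓞 K) (h : (𝓞 k)[X]), h.Monic → Irreducible (h.map (algebraMap (𝓞 k) k)) →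
  aeval θ h = 0 → Algebra.adjoin k {(θ : K)} = ⊤ →
  {v : Pr k | Nat.card (𝓞 K →ₐ[𝓞 k] (𝓞 k ⧸ v.asIdeal)) ≠ Rt h v}.Finite

/-- **O2** (the number of roots has mean one).  Hypotheses: StA2 StC2 StC3 StC6 (of BC) StO1.
PROOF.  `K = AdjoinRoot (h.map _)`, a number field, `θ` the class of `X`, integral.  C6: the mean of `N1 K v` is `1`; `N1 K v` is the number of
homomorphisms (C3), equal to `Rt h v` outside a finite set (O1); `Rt h v ≤ natDegree h` (`h` is monic), `wt s v ≤ 1`, so the exceptional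
`v` contribute `O(s-1)`. -/
def StO2 : Prop := ∀ (k : Type) [Field k] [NumberField k] (h : (𝓞 k)[X]), h.Monic →
  Irreducible (h.map (algebraMap (𝓞 k) k)) →
  Tendsto (fun s : ℝ => (s - 1) * ∑' v : Pr k, (Rt h v : ℝ) * wt s v) (𝓝[>] 1) (𝓝 1)

/-- **O3** (free part with respect to `n`-th powers, in one variable).
PROOF.  `L = Ky k m`, a field of characteristic `0`.  `E = c ∏ p_i^(a_i)` over `L` with different monic irreducible `p_i`; `a_i = n b_i + r_i`,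
`0 ≤ r_i < n`; `P₁ = c ∏ p_i^(r_i)`, `Q₁ = ∏ p_i^(b_i)`, `E = P₁ Q₁^n`.  (Or by strong induction on the degree: if `E = u^n E'` with `deg u ≥ 1` divide.)
Clear denominators: `α P₁ = P₀`, `β Q₁ = Q₀`, `α, β ≠ 0` in `Py k m`; `(αβ)^n E = α^(n-1) P₀ Q₀^n`: take `δ = αβ`, `P = C α^(n-1) P₀`, `Q = Q₀`.  If all `r_i` are `0` then `P` is
constant.  Otherwise let `p = p_i` with `r = r_i ≥ 1`, `P₁ = p^r P₃`, `p ∤ P₃`.  `A p + B P₃ = 1` and `A' p + B' p' = 1` over `L`.  Multiply all these polynomials by a common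
nonzero `γ ∈ Py k m`: then `γ^N P = γ' p̃^r P̃₃` with `p̃, P̃₃` over `Py k m`, and combinations of `p̃, P̃₃` and of `p̃, p̃'` equal to nonzero constants.  Let `P₂` be the
product of all these constants, of `γ`, `γ'` and of the leading coefficients of `p̃` and `P`.  If `val v y P₂ ≠ 0` then modulo `(v, y)` (a field) `p̃` is squarefree of
degree `≥ 1` and coprime to `P̃₃`: an irreducible factor `π` of `p̃` has multiplicity exactly `r` in `P`, `1 ≤ r < n`, so `NP n (fib P v y)`, and the degree of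
`P` does not drop. -/
def StO3 : Prop := ∀ (k : Type) [Field k] [NumberField k] (m n : ℕ) (E : (Py k m)[X]),
  n.Prime → E ≠ 0 → ∃ (δ : Py k m) (P Q : (Py k m)[X]), δ ≠ 0 ∧ P ≠ 0 ∧ Q ≠ 0 ∧
    C δ ^ n * E = P * Q ^ n ∧ (P.natDegree = 0 ∨ ∃ P₂ : Py k m, P₂ ≠ 0 ∧
      ∀ (v : Pr k) (y : Fin m → Kv v), val v y P₂ ≠ 0 →
        NP n (fib P v y) ∧ (fib P v y).natDegree = P.natDegree)

/-- **O4** (induction step).  Hypotheses: StA7 StF1 StE6 StE7 StO3.
PROOF.  `E' = finSuccEquiv E ∈ (Py k m)[X]` (the variable `0` becomes `X`), `val v (Fin.cons x y) E = (fib E' v y).eval x`.  O3 gives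
`δ^n E' = P Q^n`.  Write `ν(c) = #{z : z^n = c} - 1`, `|ν| ≤ n`, `ν(c u^n) = ν(c)` for `u ≠ 0`.  Let `y` be such that `δ(y) ≠ 0` and `lc Q (y) ≠ 0`; then for all but `deg Q` of the
`x ∈ κ`: `ν(E(x,y)) = ν(P(x,y))`.  (a) `natDegree P ≥ 1`: if moreover `P₂(y) ≠ 0`: `ν(c) = ∑_(ψ ∈ XX) ψ(c)` (E7) and `|∑_x ψ(P(x,y))| ≤ deg P √q` (E6 (i)), so
`|∑_x ν(E(x,y))| ≤ n deg P √q + 2 n deg Q`; the number of bad `y` is `≤ Cst q^(m-1)` by F1 (`m = 0`: none for `v ∉ R`), each contributes at most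
`n q`: `|avN n E v| ≤ Cst / √q`.  (b) `P = C e`: `∑_x ν(E(x,y)) = q ν(e(y)) + O(n deg Q)`, so `|avN n E v - avN n e v| ≤ Cst / q`; if `e = (s/t)^n` in `Ky k m` then
`t^n δ^n E' = s^n Q^n`, so `E` is an `n`-th power in `Ky k (m+1)`; `e ≠ 0`. -/
def StO4 : Prop := ∀ (k : Type) [Field k] [NumberField k] (m n : ℕ) (E : Py k (m + 1)),
  n.Prime → E ≠ 0 → (¬ ∃ z : Ky k (m + 1), z ^ n = algebraMap (Py k (m + 1)) (Ky k (m + 1)) E) →
  ∃ (Cst : ℝ) (R : Set (Pr k)), R.Finite ∧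
    ((∀ v, v ∉ R → |avN n E v| * √(q v) ≤ Cst) ∨
      ∃ e : Py k m, e ≠ 0 ∧ (¬ ∃ z : Ky k m, z ^ n = algebraMap (Py k m) (Ky k m) e) ∧
        ∀ v, v ∉ R → |avN n E v - avN n e v| * q v ≤ Cst)

/-- **E11** (the kernel has mean zero).  Hypotheses: StA2 StE7 StO2 StO4.
PROOF.  Induction on `m` with O4.  `|avN| ≤ n`.  A bounded function `a` with `|a v| √(q v) ≤ Cst` outside a finite set satisfies
`(s-1) ∑' a v wt s v → 0` (`∑ |a v| wt s v ≤ Cst ∑ wt (3/2) v + O(1)`, A2); this settles the first case of O4, and reduces the second to `e`.  `m = 0`: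
`Py k 0 ≅ 𝓞 k`, `E` corresponds to `a ∈ 𝓞 k`, `a ≠ 0`, not an `n`-th power in `k` (`Ky k 0 ≅ k`), so `h = X^n - C a` is irreducible over `k`
(`X_pow_sub_C_irreducible_of_prime`), `avN n E v = Rt h v - 1`; O2 and A2. -/
def StE11 : Prop := ∀ (k : Type) [Field k] [NumberField k] (m n : ℕ) (E : Py k m), n.Prime →
  E ≠ 0 → (¬ ∃ z : Ky k m, z ^ n = algebraMap (Py k m) (Ky k m) E) →
  Tendsto (fun s : ℝ => (s - 1) * ∑' v : Pr k, avN n E v * wt s v) (𝓝[>] 1) (𝓝 0)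

/-! ## The main theorem -/

/-- `q_v^(-m)` times the sum over the smooth fibres of `X_D` over the residue field at `v` of the trace on `H²` -/
def BN {k : Type} [Field k] [NumberField k] {m : ℕ} (n n' : ℕ) (D : Py k m) (f g : (Py k m)[X])
    (v : Pr k) : ℝ :=
  (∑ᶠ y : Fin m → Kv v, if Good D f g v y then
    (2 * (q v : ℝ) + (tN n (C (val v y D) * fib f v y) : ℝ) * (tN n' (fib g v y) : ℝ)) else 0) /
      (q v : ℝ) ^ m

/-- **E12** (main theorem).  `b i v` is any number which differs from the average `BN` over the smooth fibres by a bounded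
amount (all terms coming from singular fibres and from points at infinity of the base are of this kind), for `v` outside a
finite set.  Hypotheses: StA2 StA7 StF1 StF2 StF7 StE7 StE8 StE9 StE10 StE11.
PROOF.  A point `p = (v, y)` is called good if `D_i(y) ≠ 0` for all `i` and `f_y`, `g_y` have full degree and are squarefree; by F2 for `f`, `g` and F1
for `∏ D_i P_f P_g` all but `Cst q^(m-1)` of the `y` are good (`v ∉ R'`, finite).  Put, with `κ = Kv v` (a field of `q v` elements), at a good point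
`G_i(p) = tN n (C (D_i y) f_y) tN n' g_y / q`, `κ_ij(p) = #{z : z^n = D_i(y) D_j(y)^(n-1)} - 1`, and `0` at the other points.  `t = tN n' g_y / q`,
`|t| ≤ gg n' (deg g) / √q` (E8 with `a = 1`), so E9 gives the hypothesis of E10 with `N = n - 1`, `A = (n - 1) (dd n (deg f) gg n' (deg g))²`,
`N A = B²`, `B = gg n (deg f) gg n' (deg g)`.  `V = Σ v, (Fin m → Kv v)`, `w s (v,y) = (s-1) wt s v / q^m`, `∑' w → 1` (A2); `|G_i| ≤ B`, `|κ_ij| ≤ n` and `κ_ii ≤ n - 1` (E7).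
`∑' w κ_ij = (s-1) ∑_v avN n (D_i D_j^(n-1)) v wt s v + O(s-1) ∑ wt s v / q → 0` for `i ≠ j` (E11; `D_i D_j^(n-1)` is not an `n`-th power).  So with
`μ_i v = ∑_y G_i(v,y) / q^m`, `|μ_i| ≤ B`, E10 is the hypothesis of F7 with this `B`.  Finally for `v ∉ R'`: `|BN n n' (D_i) f g v - (2 q + μ_i v q)| ≤ Cst` since the points
which are not good are `≤ Cst q^(m-1)` and each contributes `≤ (2 + B) q`. -/
def StE12 : Prop := ∀ (k : Type) [Field k] [NumberField k] (m : ℕ) (f g : (Py k m)[X]),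
  1 ≤ f.natDegree → 1 ≤ g.natDegree → (f.map (algebraMap (Py k m) (Ky k m))).Separable →
  (g.map (algebraMap (Py k m) (Ky k m))).Separable →
  ∀ (n n' : ℕ), n.Prime → n'.Prime → ∀ (ι : Type) [Fintype ι] (D : ι → Py k m), (∀ i, D i ≠ 0) →
  (∀ i j, i ≠ j → ¬ ∃ z : Ky k m,
    z ^ n = algebraMap (Py k m) (Ky k m) (D i * D j ^ (n - 1))) →
  ∀ (Cst : ℝ) (R : Set (Pr k)) (b : ι → Pr k → ℝ), R.Finite →
  (∀ i, ∀ v, v ∉ R → |b i v - BN n n' (D i) f g v| ≤ Cst) →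
  (∀ i, ∀ s : ℝ, 2 < s → Summable (fun v : Pr k => b i v * Real.log (q v) * (q v : ℝ) ^ (-s))) ∧
  ∀ ε > 0, ∀ᶠ s : ℝ in 𝓝[>] 2,
    ∑ i, ((s - 2) * (∑' v : Pr k, b i v * Real.log (q v) * (q v : ℝ) ^ (-s)) - 2) ^ 2 ≤
      ((gg n f.natDegree * gg n' g.natDegree : ℕ) : ℝ) ^ 2 + ε

end

end Pool.Agent.Helper96.SE
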